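import Pool.Agent.TMGrowth.Model

/-!
The topological full group of the Thue–Morse subshift contains a finitely generated subgroup of
intermediate growth.
-/

namespace Pool.Agent.Results.MP_0e9457_al.MorseIntermediate

open Pool.Agent.TMGrowth Equiv Filter

/-- the generating set -/
def gens : Set (subshift morse ≃ₜ subshift morse) := Set.range gen

theorem gens_inv {s : subshift morse ≃ₜ subshift morse} (h : s ∈ gens ∨ s⁻¹ ∈ gens) :
    ∃ u, gen u = s := by
  rcases h with ⟨u, hu⟩ | ⟨u, hu⟩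
  · exact ⟨u, hu⟩
  · refine ⟨u, ?_⟩
    have h1 : gen u * gen u = 1 := gen_sq u
    have h2 : s * gen u = 1 := by rw [hu, mul_inv_cancel]
    calc gen u = (s * gen u) * gen u := by rw [h2, one_mul]
      _ = s := by rw [mul_assoc, h1, mul_one]

theorem ev_map (l : List Ltr) : Y.ev l = toP ((l.map gen).prod) := by
  induction l with
  | nil => simp [Sys.ev]
  | cons s l ih =>
    rw [Sys.ev, ih, List.map_cons, List.prod_cons, map_mul]
    rfl

theorem ball_image (r : ℕ) : toP '' (ball gens r) = {p | ∃ l : List Ltr, l.length ≤ r ∧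
    Y.ev l = p} := by
  ext p
  constructor
  · rintro ⟨g, ⟨l, hl, hs, rfl⟩, rfl⟩
    have : ∃ m : List Ltr, m.map gen = l := by
      clear hl
      induction l with
      | nil => exact ⟨[], rfl⟩
      | cons s l ih =>
        obtain ⟨m, hm⟩ := ih (fun s' hs' => hs s' (List.mem_cons_of_mem _ hs'))
        obtain ⟨u, hu⟩ := gens_inv (hs s List.mem_cons_self)
        exact ⟨u :: m, by rw [List.map_cons, hm, hu]⟩
    obtain ⟨m, rfl⟩ := this
    exact ⟨m, by simpa using hl, ev_map m⟩
  · rintro ⟨l, hl, rfl⟩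
    refine ⟨(l.map gen).prod, ⟨l.map gen, by simpa using hl, ?_, rfl⟩, (ev_map l).symm⟩
    intro s hs
    obtain ⟨u, _, rfl⟩ := List.mem_map.1 hs
    exact Or.inl ⟨u, rfl⟩

theorem ncard_eq (r : ℕ) :
    (ball gens r).ncard = ({p | ∃ l : List Ltr, l.length ≤ r ∧ Y.ev l = p} : Set _).ncard := by
  rw [← ball_image, Set.ncard_image_of_injective _ toP_inj]

theorem ncard_le (r : ℕ) : (ball gens r).ncard ≤ (Y.S (2 * r)).card := by
  rw [ncard_eq, ← Set.ncard_coe_finset]
  apply Set.ncard_le_ncard _ (Finset.finite_toSet _)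
  rintro p ⟨l, hl, rfl⟩
  exact Finset.mem_coe.2 (Y.mem_S.2 ⟨l, by have := wt_le_length l; omega, rfl⟩)

theorem le_ncard (r : ℕ) : (Y.S r).card ≤ (ball gens r).ncard := by
  rw [ncard_eq, ← Set.ncard_coe_finset]
  apply Set.ncard_le_ncard
  · intro p hp
    obtain ⟨l, hl, rfl⟩ := Y.mem_S.1 (Finset.mem_coe.1 hp)
    exact ⟨l, by have := length_le_wt l; omega, rfl⟩
  · apply Set.Finite.subset (Finset.finite_toSet (Y.S (2 * r)))
    rintro p ⟨l, hl, rfl⟩
    exact Finset.mem_coe.2 (Y.mem_S.2 ⟨l, by have := wt_le_length l; omega, rfl⟩)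

theorem growth_lower (d : ℕ) :
    ∀ᶠ r : ℕ in atTop, (r : ℝ) ^ d < ((ball gens r).ncard : ℝ) := by
  obtain ⟨L, hL⟩ := Y.lower ab_inf (d + 1)
  filter_upwards [eventually_gt_atTop ((L + 1) ^ (d + 1))] with r hr
  set n : ℕ := r / (L + 1) with hn
  have h1 : L * n ≤ r := by
    have := Nat.div_mul_le_self r (L + 1)
    nlinarith
  have h2 : r < (L + 1) * (n + 1) := by
    have h3 := Nat.div_add_mod r (L + 1)
    have h4 := Nat.mod_lt r (Nat.succ_pos L)
    rw [← hn] at h3
    have h5 : r % (L + 1) < L + 1 := h4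
    nlinarith
  have h3 : (n + 1) ^ (d + 1) ≤ (ball gens r).ncard := by
    refine (hL n).trans ?_
    refine le_trans ?_ (le_ncard r)
    exact Finset.card_le_card (fun p hp => Y.S_mono h1 hp)
  have h4 : r ^ (d + 1) < (L + 1) ^ (d + 1) * (ball gens r).ncard := by
    calc r ^ (d + 1) < ((L + 1) * (n + 1)) ^ (d + 1) := Nat.pow_lt_pow_left h2 (by omega)
      _ = (L + 1) ^ (d + 1) * (n + 1) ^ (d + 1) := mul_pow _ _ _
      _ ≤ _ := Nat.mul_le_mul_left _ h3
  have h5 : r ^ d < (ball gens r).ncard := by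
    by_contra hcon
    have h6 : (ball gens r).ncard ≤ r ^ d := by omega
    have h7 : (L + 1) ^ (d + 1) * (ball gens r).ncard ≤ r * r ^ d :=
      Nat.mul_le_mul hr.le h6
    rw [pow_succ'] at h4
    omega
  exact_mod_cast h5

theorem growth_upper (c : ℝ) (hc : 0 < c) :
    ∀ᶠ r : ℕ in atTop, ((ball gens r).ncard : ℝ) < Real.exp (c * r) := by
  obtain ⟨K, hK, hP⟩ := Y.upper (c / 4) (by positivity)
  have h1 : Tendsto (fun r : ℕ => Real.exp (c / 2 * r)) atTop atTop := by
    apply Real.tendsto_exp_atTop.comp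
    exact Tendsto.const_mul_atTop (by positivity) tendsto_natCast_atTop_atTop
  filter_upwards [h1.eventually_gt_atTop K] with r hr
  have h2 : ((ball gens r).ncard : ℝ) ≤ K * Real.exp (c / 2 * r) := by
    have h3 : ((ball gens r).ncard : ℝ) ≤ (Y.S (2 * r)).card := by exact_mod_cast ncard_le r
    refine h3.trans ((hP (2 * r)).trans (le_of_eq ?_))
    congr 2
    push_cast; ring
  calc ((ball gens r).ncard : ℝ) ≤ K * Real.exp (c / 2 * r) := h2
    _ < Real.exp (c / 2 * r) * Real.exp (c / 2 * r) :=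
        mul_lt_mul_of_pos_right hr (Real.exp_pos _)
    _ = Real.exp (c * r) := by rw [← Real.exp_add]; ring_nf

/-- The topological full group of the Thue–Morse subshift contains a finitely generated subgroup
of intermediate growth. -/
theorem result : ∃ H : Subgroup (subshift morse ≃ₜ subshift morse),
    H ≤ fullGroup (shift morse) ∧ IntermediateGrowth H := by
  refine ⟨Subgroup.closure gens, ?_, gens, Set.finite_range gen, rfl, growth_lower,
    growth_upper⟩
  rw [Subgroup.closure_le]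
  rintro _ ⟨s, rfl⟩
  exact sw_mem T (Pl s) (Pl_T s) (Pl_cont s)

end Pool.Agent.Results.MP_0e9457_al.MorseIntermediate
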